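import Pool.Agent.W5h16.RC.Sym

/-!
# Q2: the extremals of the weighted biharmonic problem in dimension three, for large exponents

For `n = 3`, every `α ∈ (1, 3) = (4 - n, n)` and every `δ > 0` there is `q₀ > 2` such that for all
`q ≥ q₀` the infimum `S_q(α)` is attained, and no extremal is radially symmetric; moreover for
every extremal `u` there is a direction `a` which is moved by less than `δ` by every orthogonal
transformation `ρ` with `u ∘ ρ = u` (for `δ ≤ 2` it follows that `u` is not even).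

The definitions (the norm, the completion, the quotient, the infimum, the extremals) are in
`Pool/Agent/W5h16/RC/Defs.lean`.
-/

set_option autoImplicit false

open MeasureTheory Pool.Agent.W5h16.RC

namespace Pool.Agent.Results.MP_d4321b_an.NonradialExtremals

theorem result : ∀ α : ℝ, 1 < α → α < 3 → ∀ δ : ℝ, 0 < δ →
    ∃ q₀ : ℝ, 2 < q₀ ∧ ∀ q : ℝ, q₀ ≤ q →
      (∃ u : E 3 → ℝ, IsExtremal α q u) ∧
      ∀ u : E 3 → ℝ, IsExtremal α q u →
        ¬ IsRadial u ∧
        ∃ a : E 3, ‖a‖ = 1 ∧ ∀ ρ : E 3 ≃ₗᵢ[ℝ] E 3, (∀ᵐ x : E 3, u (ρ x) = u x) → ‖ρ a - a‖ < δ := by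
  intro α h1 h3 δ hδ
  obtain ⟨hex, h⟩ := main h1 h3
  obtain ⟨q₀, hq₀, hh⟩ := h δ hδ
  exact ⟨q₀, hq₀, fun q hq => ⟨hex q (by linarith), hh q hq⟩⟩

end Pool.Agent.Results.MP_d4321b_an.NonradialExtremals
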